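import Pool.Agent.H829.GE.Fib

set_option autoImplicit false

/-!
# Endomorphisms of free algebras over commutative rings: sets of primes whose intersection is prime

An endomorphism which has preimages of the variables of bounded degree at the residue fields of the primes of
a set `S` has such preimages at the residue field of `Q`, if `Q` is prime and the intersection of `S`.
-/

namespace Pool.Agent.H829.GE

open Pool.Agent.Y861.GoodR

universe u v w

variable {R : Type u} [CommRing R] {n : ℕ}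

/-- the elements `φ g` with `g` of degree at most `E` -/
def imDeg (E : ℕ) (φ : FR R n →ₐ[R] FR R n) : Submodule R (FR R n) where
  carrier := {b | ∃ g, Deg E g ∧ φ g = b}
  add_mem' := by
    rintro _ _ ⟨g, hg, rfl⟩ ⟨g', hg', rfl⟩
    exact ⟨g + g', hg.add hg', map_add _ _ _⟩
  zero_mem' := ⟨0, Deg.zero, map_zero _⟩
  smul_mem' := by
    rintro c _ ⟨g, hg, rfl⟩
    exact ⟨c • g, hg.smul c, map_smul _ _ _⟩

lemma coeff_sum_smul_mon (T : Finset (FreeMonoid (Fin n))) (c : FreeMonoid (Fin n) → R)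
    (ℓ : FR R n →ₗ[R] R) : ℓ (∑ w ∈ T, c w • mon w) = ∑ w ∈ T, c w * ℓ (mon w) := by
  rw [map_sum]
  simp only [map_smul, smul_eq_mul]

lemma eq_sum_of_subset (a : FR R n) (T : Finset (FreeMonoid (Fin n))) (h : a.coeff.support ⊆ T) :
    a = ∑ w ∈ T, a.coeff w • mon w := by
  conv_lhs => rw [FR_sum a]
  apply Finset.sum_subset h
  intro w _ hw
  rw [Finsupp.notMem_support_iff.1 hw, zero_smul]

/-- preimages of the variables of bounded degree at the residue fields of sufficiently many primes -/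
theorem preimage_of_dense (E : ℕ) (φ : FR R n →ₐ[R] FR R n) (Q : Ideal R) [hQ : Q.IsPrime]
    {K : Type v} [Field K] (f : R →+* K) (hf : IsFib Q f) (S : Set (Ideal R))
    (hS : ∀ s : R, s ∈ Q ↔ ∀ P ∈ S, s ∈ P)
    (h : ∀ P ∈ S, ∃ (K' : Type w) (_ : Field K') (f' : R →+* K'), (∀ r, f' r = 0 ↔ r ∈ P) ∧
      ∀ i, ∃ g, Deg E g ∧ bh f' φ g = gx i) (i : Fin n) :
    ∃ g, Deg E g ∧ bh f φ g = gx i := by
  classical
  by_contra hno
  have h0 : (gx i : FR K n) ∉ imDeg E (bh f φ) := hno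
  obtain ⟨ℓ, hℓ1, hℓ2⟩ := Submodule.exists_le_ker_of_notMem h0
  -- the words
  have hfin : {w : FreeMonoid (Fin n) | w.length ≤ E}.Finite := List.finite_length_le (Fin n) E
  set T : Finset (FreeMonoid (Fin n)) :=
    insert (FreeMonoid.of i) (hfin.toFinset.biUnion fun v => (φ (mon v)).coeff.support) with hT
  have hTi : FreeMonoid.of i ∈ T := Finset.mem_insert_self _ _
  have hTv : ∀ v : FreeMonoid (Fin n), v.length ≤ E → (φ (mon v)).coeff.support ⊆ T := by
    intro v hv w hw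
    apply Finset.mem_insert_of_mem
    rw [Finset.mem_biUnion]
    exact ⟨v, hfin.mem_toFinset.2 hv, hw⟩
  obtain ⟨t, ht, h1⟩ := hf.denom T (fun w => ℓ (mon w))
  have h2 : ∀ w, ∃ r : R, w ∈ T → f t * ℓ (mon w) = f r := by
    intro w
    by_cases hw : w ∈ T
    · obtain ⟨r, hr⟩ := h1 w hw
      exact ⟨r, fun _ => hr⟩
    · exact ⟨0, fun h => absurd h hw⟩
  choose r hr using h2
  have h3 : ∀ v : FreeMonoid (Fin n), v.length ≤ E →
      ∑ w ∈ T, (φ (mon v)).coeff w * r w ∈ Q := by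
    intro v hv
    rw [← hf.ker, map_sum]
    have h4 : (bh f φ) (mon v) ∈ imDeg E (bh f φ) := ⟨mon v, (Deg.mon v).mono hv, rfl⟩
    have h5 : ℓ ((bh f φ) (mon v)) = 0 := hℓ2 h4
    have h6 : (bh f φ) (mon v) = ∑ w ∈ T, f ((φ (mon v)).coeff w) • mon w := by
      rw [← bc_mon f v, bh_bc]
      conv_lhs => rw [eq_sum_of_subset _ T (hTv v hv)]
      rw [map_sum]
      apply Finset.sum_congr rfl
      intro w _
      rw [bc_smul, bc_mon]
    rw [h6, coeff_sum_smul_mon] at h5
    have h7 : ∑ w ∈ T, f ((φ (mon v)).coeff w * r w)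
        = f t * ∑ w ∈ T, f ((φ (mon v)).coeff w) * ℓ (mon w) := by
      rw [Finset.mul_sum]
      apply Finset.sum_congr rfl
      intro w hw
      rw [map_mul, ← hr w hw]
      ring
    rw [h7, h5, mul_zero]
  have h8 : r (FreeMonoid.of i) ∉ Q := by
    rw [← hf.ker, ← hr _ hTi]
    exact mul_ne_zero (fun h => ht ((hf.ker t).1 h)) hℓ1
  rw [hS] at h8
  push Not at h8
  obtain ⟨P, hPS, hP⟩ := h8
  obtain ⟨K', _, f', hf', hg⟩ := h P hPS
  obtain ⟨g, hg1, hg2⟩ := hg i
  have h9 : ∀ b : FR K' n, ∀ c : K', (∑ w ∈ T, (c • b).coeff w * f' (r w))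
      = c * ∑ w ∈ T, b.coeff w * f' (r w) := by
    intro b c
    rw [Finset.mul_sum]
    apply Finset.sum_congr rfl
    intro w _
    rw [coeff_smul', mul_assoc]
  have h10 : ∀ v : FreeMonoid (Fin n), v.length ≤ E →
      ∑ w ∈ T, ((bh f' φ) (mon v)).coeff w * f' (r w) = 0 := by
    intro v hv
    have e : (bh f' φ) (mon v) = bc f' (φ (mon v)) := by rw [← bc_mon f' v, bh_bc]
    rw [e]
    have e2 : ∑ w ∈ T, (bc f' (φ (mon v))).coeff w * f' (r w)
        = f' (∑ w ∈ T, (φ (mon v)).coeff w * r w) := by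
      rw [map_sum]
      apply Finset.sum_congr rfl
      intro w _
      rw [bc_coeff, map_mul]
    rw [e2, hf']
    exact (hS _).1 (h3 v hv) P hPS
  have h11 : ∑ w ∈ T, ((bh f' φ) g).coeff w * f' (r w) = 0 := by
    have e : (bh f' φ) g = ∑ v ∈ g.coeff.support, g.coeff v • (bh f' φ) (mon v) := by
      conv_lhs => rw [FR_sum g]
      rw [map_sum]
      simp only [map_smul]
    rw [e]
    simp only [coeff_sum', Finset.sum_mul]
    rw [Finset.sum_comm]
    apply Finset.sum_eq_zero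
    intro v hv
    rw [h9, h10 v, mul_zero]
    by_contra hlt
    exact (Finsupp.mem_support_iff.mp hv) (hg1 v (by omega))
  rw [hg2] at h11
  have h12 : ∑ w ∈ T, (gx i : FR K' n).coeff w * f' (r w) = f' (r (FreeMonoid.of i)) := by
    rw [Finset.sum_eq_single_of_mem _ hTi]
    · rw [coeff_gx, if_pos rfl, one_mul]
    · intro w _ hw
      rw [coeff_gx, if_neg hw, zero_mul]
  rw [h12, hf'] at h11
  exact hP h11

/-- an endomorphism with all variables in its image is surjective -/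
lemma surjective_of_gx (φ : FR R n →ₐ[R] FR R n) (h : ∀ i, ∃ g, φ g = gx i) :
    Function.Surjective φ := by
  classical
  have h1 : SurI φ ⊥ := by
    intro j
    obtain ⟨g, hg⟩ := h j
    exact ⟨g, by rw [hg, sub_self]; exact InI.zero⟩
  intro b
  obtain ⟨a, ha⟩ := h1.all b
  refine ⟨a, ?_⟩
  rw [← sub_eq_zero]
  ext w
  exact ha w

variable {d M E : ℕ}

/-- one level of approximation at the residue fields of sufficiently many primes -/
theorem generic_of_dense (hL : FieldLevel.{u} n d M E) (φ : FR R n →ₐ[R] FR R n)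
    (hd : ∀ i, Deg d (φ (gx i))) (Q : Ideal R) [hQ : Q.IsPrime]
    {K : Type v} [Field K] (f : R →+* K) (hf : IsFib Q f) (S : Set (Ideal R))
    (hS : ∀ s : R, s ∈ Q ↔ ∀ P ∈ S, s ∈ P)
    (h : ∀ P ∈ S, ∃ (K' : Type u) (_ : Field K') (f' : R →+* K'), (∀ r, f' r = 0 ↔ r ∈ P) ∧
      App1 M (bh f' φ)) :
    Function.Bijective (bh f φ) ∧ ∀ i, ∃ g, Deg E g ∧ bh f φ g = gx i := by
  have h1 : ∀ i, ∃ g, Deg E g ∧ bh f φ g = gx i := by
    apply preimage_of_dense E φ Q f hf S hS
    intro P hP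
    obtain ⟨K', hK', f', hf', h1⟩ := h P hP
    exact ⟨K', hK', f', hf', (hL.det K' (bh f' φ)
      (fun i => by rw [bh_gx]; exact deg_bc f' (hd i)) h1).2⟩
  have h2 : Function.Surjective (bh f φ) := surjective_of_gx _ fun i => by
    obtain ⟨g, _, hg⟩ := h1 i
    exact ⟨g, hg⟩
  exact ⟨⟨injective_of_surjective _ h2, h2⟩, h1⟩

end Pool.Agent.H829.GE
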