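import Pool.Agent.H829.GE.Ring

set_option autoImplicit false

/-!
# Endomorphisms of free algebras over commutative rings are automorphisms if they are so at all residue
fields
-/

namespace Pool.Agent.H829.GE

open Pool.Agent.Y861.GoodR

universe u v

variable {R : Type u} [CommRing R] {n : ℕ}

/-- the part of degree at most one -/
noncomputable def lin (a : FR R n) : FR R n := a.coeff 1 • (1 : FR R n) + ∑ i, a.coeff (FreeMonoid.of i) • gx i

open Classical in
lemma coeff_gx (i : Fin n) (w : FreeMonoid (Fin n)) :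
    (gx i : FR R n).coeff w = if w = FreeMonoid.of i then 1 else 0 := by
  rw [gx, MonoidAlgebra.coeff_single, Finsupp.single_apply]
  by_cases h : w = FreeMonoid.of i
  · rw [if_pos h.symm, if_pos h]
  · rw [if_neg (fun h' => h h'.symm), if_neg h]

open Classical in
lemma coeff_one' (w : FreeMonoid (Fin n)) :
    (1 : FR R n).coeff w = if w = 1 then 1 else 0 := by
  rw [← mon_one, mon, MonoidAlgebra.coeff_single, Finsupp.single_apply]
  by_cases h : w = 1
  · rw [if_pos h.symm, if_pos h]
  · rw [if_neg (fun h' => h h'.symm), if_neg h]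

lemma coeff_sum' {ι : Type*} (s : Finset ι) (f : ι → FR R n) (w : FreeMonoid (Fin n)) :
    (∑ i ∈ s, f i).coeff w = ∑ i ∈ s, (f i).coeff w := by
  classical
  induction s using Finset.induction_on with
  | empty => rfl
  | insert v s hv ih =>
    rw [Finset.sum_insert hv, Finset.sum_insert hv, MonoidAlgebra.coeff_add, Finsupp.add_apply, ih]

lemma coeff_smul' (c : R) (a : FR R n) (w : FreeMonoid (Fin n)) :
    (c • a).coeff w = c * a.coeff w := by
  rw [MonoidAlgebra.coeff_smul, Finsupp.smul_apply, smul_eq_mul]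

lemma coeff_sub' (a b : FR R n) (w : FreeMonoid (Fin n)) :
    (a - b).coeff w = a.coeff w - b.coeff w := by
  rw [MonoidAlgebra.coeff_sub, Finsupp.sub_apply]

lemma ord_sub_lin (a : FR R n) : Ord 2 (a - lin a) := by
  classical
  intro w hw
  rw [coeff_sub', lin, MonoidAlgebra.coeff_add, Finsupp.add_apply, coeff_smul', coeff_one',
    coeff_sum']
  simp only [coeff_smul', coeff_gx]
  have h1 : w.length = 0 ∨ w.length = 1 := by omega
  rcases h1 with h1 | h1
  · have h2 : w = 1 := FreeMonoid.length_eq_zero.1 h1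
    subst h2
    have h3 : ∀ i : Fin n, (1 : FreeMonoid (Fin n)) ≠ FreeMonoid.of i := by
      intro i h
      have := congrArg FreeMonoid.length h
      rw [FreeMonoid.length_of, FreeMonoid.length_one] at this
      omega
    simp [h3]
  · obtain ⟨j, rfl⟩ := FreeMonoid.length_eq_one.1 h1
    have h3 : (FreeMonoid.of j : FreeMonoid (Fin n)) ≠ 1 := by
      intro h
      have := congrArg FreeMonoid.length h
      rw [FreeMonoid.length_of, FreeMonoid.length_one] at this
      omega
    have h4 : ∀ i : Fin n, (FreeMonoid.of j = FreeMonoid.of i) ↔ j = i :=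
      fun i => FreeMonoid.of_injective.eq_iff
    simp [h3, h4]

/-- linear substitution -/
noncomputable def lsub (G : Matrix (Fin n) (Fin n) R) : FR R n →ₐ[R] FR R n :=
  MonoidAlgebra.lift R (FR R n) (FreeMonoid (Fin n))
    (FreeMonoid.lift (fun i => ∑ k, G i k • (gx k : FR R n)))

lemma lsub_gx (G : Matrix (Fin n) (Fin n) R) (i : Fin n) :
    lsub G (gx i) = ∑ k, G i k • (gx k : FR R n) := by
  rw [lsub, gx, MonoidAlgebra.lift_single, one_smul, FreeMonoid.lift_eval_of]

lemma lsub_lsub (G L : Matrix (Fin n) (Fin n) R) (h : L * G = 1) (a : FR R n) :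
    lsub G (lsub L a) = a := by
  have : (lsub G).comp (lsub L) = AlgHom.id R (FR R n) := by
    apply hom_ext
    intro i
    rw [AlgHom.comp_apply, lsub_gx, map_sum]
    simp only [map_smul, lsub_gx, Finset.smul_sum, smul_smul]
    rw [Finset.sum_comm]
    simp only [← Finset.sum_smul]
    have h1 : ∀ k, ∑ j, L i j * G j k = (1 : Matrix (Fin n) (Fin n) R) i k := by
      intro k
      rw [← h, Matrix.mul_apply]
    simp only [h1, Matrix.one_apply]
    simp
  exact congrArg (fun f : FR R n →ₐ[R] FR R n => f a) this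

/-- **free algebras of finite rank over commutative rings are Hopfian** -/
theorem injective_of_surjective (φ : FR R n →ₐ[R] FR R n) (h : Function.Surjective φ) :
    Function.Injective φ := by
  classical
  let c : Fin n → R := fun j => -eps R n (φ (gx j))
  let c' : Fin n → R := fun j => -c j
  have hcc' : ∀ j, c j + c' j = 0 := fun j => by simp [c']
  have hc'c : ∀ j, c' j + c j = 0 := fun j => by simp [c']
  let φ' : FR R n →ₐ[R] FR R n := φ.comp (tr c)
  have hgx : ∀ i, φ' (gx i) = φ (gx i) + c i • (1 : FR R n) := by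
    intro i
    show φ (tr c (gx i)) = _
    rw [tr_gx, map_add, map_smul, map_one φ]
  have hφ0 : ∀ i, Ord 1 (φ' (gx i)) := by
    intro i
    rw [ord_one_iff, hgx, map_add, map_smul, map_one (eps R n), smul_eq_mul, mul_one]
    simp [c]
  have hφφ' : ∀ a, φ a = φ' (tr c' a) := by
    intro a
    show φ a = φ (tr c (tr c' a))
    rw [tr_tr c c' hcc']
  have hs' : Function.Surjective φ' := by
    intro b
    obtain ⟨a, ha⟩ := h b
    exact ⟨tr c' a, by rw [← hφφ', ha]⟩
  choose g hg using fun i : Fin n => hs' (gx i)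
  obtain ⟨G, hG⟩ : ∃ G : Matrix (Fin n) (Fin n) R, ∀ i k, G i k = (g i).coeff (FreeMonoid.of k) :=
    ⟨Matrix.of fun i k => (g i).coeff (FreeMonoid.of k), fun _ _ => rfl⟩
  obtain ⟨L, hL⟩ : ∃ L : Matrix (Fin n) (Fin n) R, ∀ k j, L k j = (φ' (gx k)).coeff (FreeMonoid.of j) :=
    ⟨Matrix.of fun k j => (φ' (gx k)).coeff (FreeMonoid.of j), fun _ _ => rfl⟩
  let ψ : FR R n →ₐ[R] FR R n := φ'.comp (lsub G)
  have hψgx : ∀ i, ψ (gx i) = ∑ k, G i k • φ' (gx k) := by
    intro i
    show φ' (lsub G (gx i)) = _
    rw [lsub_gx, map_sum]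
    simp only [map_smul]
  have h1 : ∀ i, Ord 2 (ψ (gx i) - gx i) := by
    intro i
    have h2 : Ord 2 (φ' (g i - lin (g i))) := (ord_sub_lin (g i)).map φ' hφ0
    have h3 : φ' (g i - lin (g i)) = gx i - ((g i).coeff 1 • (1 : FR R n) + ψ (gx i)) := by
      rw [map_sub, hg, lin, map_add, map_smul, map_one φ', map_sum, hψgx]
      simp only [map_smul, hG]
    rw [h3] at h2
    have h4 : (g i).coeff 1 = 0 := by
      have h5 : eps R n (gx i - ((g i).coeff 1 • (1 : FR R n) + ψ (gx i))) = 0 :=
        (ord_one_iff _).1 (h2.mono (by omega))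
      have h6 : eps R n (ψ (gx i)) = 0 := by
        rw [hψgx, map_sum]
        apply Finset.sum_eq_zero
        intro k _
        rw [map_smul, (ord_one_iff _).1 (hφ0 k), smul_zero]
      rw [map_sub, map_add, eps_gx, map_smul, map_one (eps R n), h6, smul_eq_mul, mul_one] at h5
      simpa using h5
    rw [h4, zero_smul, zero_add] at h2
    have h7 := h2.neg
    rwa [neg_sub] at h7
  have hGL : G * L = 1 := by
    ext i j
    rw [Matrix.mul_apply, Matrix.one_apply]
    have h8 := h1 i (FreeMonoid.of j) (by rw [FreeMonoid.length_of]; omega)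
    rw [coeff_sub', hψgx, coeff_sum', coeff_gx] at h8
    simp only [coeff_smul'] at h8
    have h9 : (FreeMonoid.of j = FreeMonoid.of i) ↔ i = j := by
      rw [FreeMonoid.of_injective.eq_iff]
      exact eq_comm
    simp only [h9] at h8
    simp only [hL]
    exact sub_eq_zero.1 h8
  have hLG : L * G = 1 := mul_eq_one_comm.1 hGL
  rw [injective_iff_map_eq_zero]
  intro a ha
  have h10 : φ' (tr c' a) = 0 := by rw [← hφφ', ha]
  have h11 : lsub L (tr c' a) = 0 := by
    apply inj_of_two ψ h1
    show φ' (lsub G (lsub L (tr c' a))) = 0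
    rw [lsub_lsub G L hLG, h10]
  have h12 : tr c' a = 0 := by
    rw [← lsub_lsub G L hLG (tr c' a), h11, map_zero]
  rw [← tr_tr c c' hcc' a, h12, map_zero]

/-- a homomorphism of the ring to the residue field of a prime ideal -/
structure IsFib (P : Ideal R) {K : Type v} [Field K] (f : R →+* K) : Prop where
  ker : ∀ r, f r = 0 ↔ r ∈ P
  frac : ∀ x : K, ∃ s r : R, s ∉ P ∧ f s * x = f r

lemma IsFib.denom {P : Ideal R} [hP : P.IsPrime] {K : Type v} [Field K] {f : R →+* K}
    (hf : IsFib P f) (s : Finset (FreeMonoid (Fin n))) (x : FreeMonoid (Fin n) → K) :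
    ∃ t : R, t ∉ P ∧ ∀ w ∈ s, ∃ r, f t * x w = f r := by
  classical
  induction s using Finset.induction_on with
  | empty => exact ⟨1, fun h => hP.ne_top ((Ideal.eq_top_iff_one P).2 h), by simp⟩
  | insert v s hv ih =>
    obtain ⟨t, ht, h1⟩ := ih
    obtain ⟨a, r, ha, h2⟩ := hf.frac (x v)
    refine ⟨t * a, fun h => (hP.mem_or_mem h).elim ht ha, fun w hw => ?_⟩
    rcases Finset.mem_insert.1 hw with rfl | hw
    · exact ⟨t * r, by rw [map_mul, map_mul, mul_assoc, h2]⟩
    · obtain ⟨r', hr'⟩ := h1 w hw
      exact ⟨a * r', by rw [map_mul, map_mul, ← hr']; ring⟩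

lemma surI_iff_surjective (φ : FR R n →ₐ[R] FR R n) (I : Ideal R) (h : SurI φ I) :
    Function.Surjective (bh (Ideal.Quotient.mk I) φ) := by
  classical
  intro b
  have hc : ∀ w, ∃ c : R, Ideal.Quotient.mk I c = b.coeff w := fun w =>
    Ideal.Quotient.mk_surjective _
  choose c hc using hc
  have hb : bc (Ideal.Quotient.mk I) (∑ w ∈ b.coeff.support, c w • mon w : FR R n) = b := by
    rw [map_sum]
    conv_rhs => rw [FR_sum b]
    apply Finset.sum_congr rfl
    intro w _
    rw [bc_smul, bc_mon, hc]
  obtain ⟨a, ha⟩ := h.all (∑ w ∈ b.coeff.support, c w • mon w : FR R n)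
  refine ⟨bc (Ideal.Quotient.mk I) a, ?_⟩
  rw [bh_bc, ← sub_eq_zero]
  conv_lhs => rw [← hb]
  rw [← map_sub]
  exact (inI_iff_bc I _).1 ha

/-- **An endomorphism of a free algebra over a commutative ring is surjective if it is surjective at all
residue fields.** -/
theorem surjective_of_fibres (φ : FR R n →ₐ[R] FR R n)
    (h : ∀ P : Ideal R, P.IsPrime → ∃ (K : Type u) (_ : Field K) (f : R →+* K), IsFib P f ∧
      Function.Surjective (bh f φ)) : Function.Surjective φ := by
  classical
  by_contra hns
  have hbot : ¬ SurI φ ⊥ := by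
    intro key
    apply hns
    intro b
    obtain ⟨a, ha⟩ := key.all b
    refine ⟨a, ?_⟩
    rw [← sub_eq_zero]
    ext w
    exact ha w
  -- a maximal ideal modulo which `φ` is not surjective
  obtain ⟨P, -, hP⟩ := zorn_le_nonempty₀ {I : Ideal R | ¬ SurI φ I} (fun C hC hchain J hJ => by
    refine ⟨sSup C, ?_, fun I hI => le_sSup hI⟩
    intro hs
    choose a ha using hs
    have hfin : ∀ T : Finset R, (∀ t ∈ T, t ∈ sSup C) → ∃ I ∈ C, ∀ t ∈ T, t ∈ I := by
      intro T
      induction T using Finset.induction_on with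
      | empty => intro _; exact ⟨J, hJ, by simp⟩
      | insert t T ht ih =>
        intro hT
        obtain ⟨I, hI, h1⟩ := ih (fun t ht => hT t (Finset.mem_insert_of_mem ht))
        obtain ⟨I', hI', h2⟩ := (Submodule.mem_sSup_of_directed ⟨J, hJ⟩ hchain.directedOn).1
          (hT t (Finset.mem_insert_self _ _))
        rcases hchain.total hI hI' with h3 | h3
        · refine ⟨I', hI', fun x hx => ?_⟩
          rcases Finset.mem_insert.1 hx with rfl | hx
          · exact h2
          · exact h3 (h1 x hx)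
        · refine ⟨I, hI, fun x hx => ?_⟩
          rcases Finset.mem_insert.1 hx with rfl | hx
          · exact h3 h2
          · exact h1 x hx
    obtain ⟨I, hI, h1⟩ := hfin (Finset.univ.biUnion fun j =>
      (φ (a j) - gx j).coeff.support.image fun w => (φ (a j) - gx j).coeff w) (by
        intro t ht
        simp only [Finset.mem_biUnion, Finset.mem_image] at ht
        obtain ⟨j, -, w, -, rfl⟩ := ht
        exact ha j w)
    refine hC hI fun j => ⟨a j, fun w => ?_⟩
    by_cases hw : w ∈ (φ (a j) - gx j).coeff.support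
    · apply h1
      simp only [Finset.mem_biUnion, Finset.mem_image]
      exact ⟨j, Finset.mem_univ _, w, hw, rfl⟩
    · rw [Finsupp.notMem_support_iff.1 hw]
      exact I.zero_mem) ⊥ hbot
  have hP1 : ¬ SurI φ P := hP.prop
  have hP2 : ∀ I : Ideal R, P < I → SurI φ I := by
    intro I hI
    by_contra hnI
    exact absurd (hP.le_of_ge hnI hI.le) (not_le_of_gt hI)
  have hprime : P.IsPrime := (isOka φ).isPrime_of_maximal_not ⟨hP1, fun I hI hle => by
    by_contra hnle
    exact hI (hP2 I (lt_of_le_not_ge hle hnle))⟩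
  apply hP1
  intro j
  obtain ⟨K, _, f, hf, hsur⟩ := h P hprime
  obtain ⟨h0, hh0⟩ := hsur (gx j)
  obtain ⟨s, hs, hr⟩ := hf.denom h0.coeff.support (fun w => h0.coeff w)
  have hc : ∀ w, ∃ c : R, f c = f s * h0.coeff w := by
    intro w
    by_cases hw : w ∈ h0.coeff.support
    · obtain ⟨c, hc⟩ := hr w hw
      exact ⟨c, hc.symm⟩
    · exact ⟨0, by rw [Finsupp.notMem_support_iff.1 hw, map_zero, mul_zero]⟩
  choose c hc using hc
  set a : FR R n := ∑ w ∈ h0.coeff.support, c w • mon w with ha
  have hba : bc f a = f s • h0 := by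
    rw [ha, map_sum]
    conv_rhs => rw [FR_sum h0, Finset.smul_sum]
    apply Finset.sum_congr rfl
    intro w _
    rw [bc_smul, bc_mon, smul_smul, hc]
  have h1 : bc f (φ a - s • gx j) = 0 := by
    rw [map_sub, ← bh_bc, hba, map_smul, hh0, bc_smul, bc_gx, sub_self]
  have h2 : InI P (φ a - s • gx j) := by
    intro w
    rw [← hf.ker, ← bc_coeff, h1]
    rfl
  -- reduction modulo `s`
  set J : Ideal R := P ⊔ Ideal.span {s} with hJ
  have hPJ : P < J := by
    refine lt_of_le_of_ne le_sup_left fun he => hs ?_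
    rw [he]
    exact (le_sup_right : Ideal.span {s} ≤ J) (Ideal.mem_span_singleton_self s)
  have h3 : Function.Injective (bh (Ideal.Quotient.mk J) φ) :=
    injective_of_surjective _ (surI_iff_surjective φ J (hP2 J hPJ))
  have h4 : InI J a := by
    rw [inI_iff_bc]
    apply h3
    rw [bh_bc, map_zero, ← inI_iff_bc]
    have e : φ a = (φ a - s • gx j) + s • gx j := by abel
    rw [e]
    refine (h2.mono hPJ.le).add ?_
    intro w
    rw [coeff_smul', mul_comm]
    exact J.mul_mem_left _ ((le_sup_right : Ideal.span {s} ≤ J) (Ideal.mem_span_singleton_self s))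
  have hz : ∀ w, ∃ i ∈ P, ∃ z, a.coeff w = i + z * s := by
    intro w
    obtain ⟨i, hi, z, hz, e⟩ := Submodule.mem_sup.1 (h4 w)
    obtain ⟨z', rfl⟩ := Ideal.mem_span_singleton'.1 hz
    exact ⟨i, hi, z', e.symm⟩
  choose i hi z hz using hz
  set C : FR R n := ∑ w ∈ a.coeff.support, z w • mon w with hC
  set B : FR R n := ∑ w ∈ a.coeff.support, i w • mon w with hB
  have h5 : a = B + s • C := by
    rw [hB, hC, Finset.smul_sum, ← Finset.sum_add_distrib]
    conv_lhs => rw [FR_sum a]
    apply Finset.sum_congr rfl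
    intro w _
    rw [hz, add_smul, smul_smul, mul_comm]
  have h6 : InI P B := by
    rw [hB]
    generalize a.coeff.support = T
    induction T using Finset.induction_on with
    | empty => exact InI.zero
    | insert v T hv ih =>
      rw [Finset.sum_insert hv]
      refine InI.add ?_ ih
      intro w
      rw [coeff_smul']
      exact P.mul_mem_right _ (hi v)
  have h7 : InI P (φ B) := by
    rw [inI_iff_bc, ← bh_bc, (inI_iff_bc P B).1 h6, map_zero]
  refine ⟨C, fun w => ?_⟩
  have h8 : InI P (s • (φ C - gx j)) := by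
    have e : s • (φ C - gx j) = (φ a - s • gx j) + -(φ B) := by
      conv_rhs => rw [h5]
      rw [map_add, map_smul, smul_sub]
      abel
    rw [e]
    exact h2.add h7.neg
  have h9 := h8 w
  rw [coeff_smul'] at h9
  exact (hprime.mem_or_mem h9).resolve_left hs

/-- **An endomorphism of a free algebra over a commutative ring is an automorphism if it is one at all
residue fields.** -/
theorem bijective_of_fibres (φ : FR R n →ₐ[R] FR R n)
    (h : ∀ P : Ideal R, P.IsPrime → ∃ (K : Type u) (_ : Field K) (f : R →+* K), IsFib P f ∧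
      Function.Surjective (bh f φ)) : Function.Bijective φ :=
  have hs := surjective_of_fibres φ h
  ⟨injective_of_surjective φ hs, hs⟩

variable {d M E : ℕ}

/-- one level of approximation at every residue field is sufficient -/
theorem bijective_of_app1_fibres (hL : FieldLevel.{u} n d M E) (φ : FR R n →ₐ[R] FR R n)
    (hd : ∀ i, Deg d (φ (gx i)))
    (h : ∀ P : Ideal R, P.IsPrime → ∃ (K : Type u) (_ : Field K) (f : R →+* K), IsFib P f ∧
      App1 M (bh f φ)) : Function.Bijective φ := by
  apply bijective_of_fibres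
  intro P hP
  obtain ⟨K, hK, f, hf, h1⟩ := h P hP
  exact ⟨K, hK, f, hf, (hL.det K (bh f φ) (fun i => by rw [bh_gx]; exact deg_bc f (hd i)) h1).1.2⟩

/-- the degree of the inverse over a reduced ring -/
theorem deg_inv_fibres [IsReduced R] (hL : FieldLevel.{u} n d M E) (φ : FR R n →ₐ[R] FR R n)
    (hd : ∀ i, Deg d (φ (gx i)))
    (h : ∀ P : Ideal R, P.IsPrime → ∃ (K : Type u) (_ : Field K) (f : R →+* K), IsFib P f ∧
      App1 M (bh f φ)) (i : Fin n) (g : FR R n) (hg : φ g = gx i) : Deg E g := by
  intro w hw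
  have h1 : IsNilpotent (g.coeff w) := by
    rw [← mem_nilradical, nilradical_eq_sInf, Ideal.mem_sInf]
    intro P hP
    have hP' : P.IsPrime := hP
    obtain ⟨K, hK, f, hf, h1⟩ := h P hP'
    obtain ⟨hb, hpre⟩ := hL.det K (bh f φ) (fun i => by rw [bh_gx]; exact deg_bc f (hd i)) h1
    obtain ⟨g', hg1, hg2⟩ := hpre i
    have h2 : bc f g = g' := by
      apply hb.1
      rw [hg2, bh_bc, hg, bc_gx]
    rw [← hf.ker, ← bc_coeff, h2, hg1 w hw]
  exact h1.eq_zero

end Pool.Agent.H829.GE
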