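import Pool.Graph.R_seed8.Y861.GoodR.Change
import Pool.Graph.R_seed8.Y814.FD.QFinal

set_option autoImplicit false

/-!
# Endomorphisms of free algebras over commutative rings, approximated by one automorphism

The library theorems used are `Pool.Agent.Y814.FD.fin_det` (fields, one level of approximation) and the
tools of `Pool.Agent.Y861.GoodR` (base change, surjectivity modulo an ideal is an Oka property).
-/

namespace Pool.Agent.H829.GE

open Pool.Agent.Y861.GoodR

universe u v

variable {R : Type u} [CommRing R] {n : ℕ}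

/-- approximation of order `m` by an automorphism at a point -/
def App1 (m : ℕ) (φ : FR R n →ₐ[R] FR R n) : Prop :=
  ∃ (p : Fin n → R) (α : FR R n ≃ₐ[R] FR R n), ∀ i, Ord m (tr p (φ (gx i) - α (gx i)))

lemma App1.mono {m m' : ℕ} (h : m ≤ m') {φ : FR R n →ₐ[R] FR R n} (hφ : App1 m' φ) : App1 m φ := by
  obtain ⟨p, α, hα⟩ := hφ
  exact ⟨p, α, fun i => (hα i).mono h⟩

lemma App1.bh {S : Type v} [CommRing S] (f : R →+* S) {m : ℕ} {φ : FR R n →ₐ[R] FR R n}
    (h : App1 m φ) : App1 m (bh f φ) := by
  obtain ⟨p, α, hα⟩ := h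
  refine ⟨fun j => f (p j), be f α, fun i => ?_⟩
  rw [bh_gx, be_gx, ← map_sub, ← bh_tr, bh_bc]
  exact (hα i).bc f

lemma deg_bc {S : Type v} [CommRing S] (f : R →+* S) {d : ℕ} {a : FR R n} (ha : Deg d a) :
    Deg d (bc f a) := by
  intro w hw
  rw [bc_coeff, ha w hw, map_zero]

/-- endomorphisms which are the identity modulo monomials of degree two raise orders -/
lemma ord_succ (ψ : FR R n →ₐ[R] FR R n) (h : ∀ i, Ord 2 (ψ (gx i) - gx i)) {k : ℕ} {a : FR R n}
    (ha : Ord k a) : Ord (k + 1) (ψ a - a) := by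
  have h1 : ∀ i, Ord 1 (ψ (gx i)) := by
    intro i
    have e : ψ (gx i) = (ψ (gx i) - gx i) + gx i := by abel
    rw [e]
    refine ((h i).mono (by omega)).add ?_
    exact Ord.mon (FreeMonoid.of i) (by rw [FreeMonoid.length_of])
  have hmon : ∀ w : FreeMonoid (Fin n), Ord (w.length + 1) (ψ (mon w) - mon w) := by
    intro w
    induction w using FreeMonoid.inductionOn' with
    | one => rw [mon_one, map_one, sub_self]; exact Ord.zero
    | of_mul i w ih =>
      have e : ψ (mon (FreeMonoid.of i * w)) - mon (FreeMonoid.of i * w)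
          = ψ (gx i) * (ψ (mon w) - mon w) + (ψ (gx i) - gx i) * mon w := by
        rw [mon_mul, mon_of, map_mul, mul_sub, sub_mul]
        abel
      rw [e, FreeMonoid.length_mul, FreeMonoid.length_of]
      refine Ord.add ?_ ?_
      · exact ((h1 i).mul ih).mono (by omega)
      · exact ((h i).mul (Ord.mon w le_rfl)).mono (by omega)
  have e : ψ a - a = ∑ w ∈ a.coeff.support, a.coeff w • (ψ (mon w) - mon w) := by
    conv_lhs => rw [FR_sum a]
    rw [map_sum, ← Finset.sum_sub_distrib]
    apply Finset.sum_congr rfl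
    intro w _
    rw [map_smul, smul_sub]
  rw [e]
  have : ∀ (s : Finset (FreeMonoid (Fin n))), (∀ w ∈ s, k ≤ w.length) →
      Ord (k + 1) (∑ w ∈ s, a.coeff w • (ψ (mon w) - mon w)) := by
    classical
    intro s
    induction s using Finset.induction_on with
    | empty => intro _; exact Ord.zero
    | insert v s hv ih =>
      intro hs
      rw [Finset.sum_insert hv]
      refine Ord.add ?_ (ih fun w hw => hs w (Finset.mem_insert_of_mem hw))
      refine Ord.smul _ ((hmon v).mono ?_)
      have := hs v (Finset.mem_insert_self _ _)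
      omega
  apply this
  intro w hw
  by_contra hlt
  exact (Finsupp.mem_support_iff.mp hw) (ha w (by omega))

/-- endomorphisms which are the identity modulo monomials of degree two are injective -/
lemma inj_of_two (ψ : FR R n →ₐ[R] FR R n) (h : ∀ i, Ord 2 (ψ (gx i) - gx i)) {a : FR R n}
    (ha : ψ a = 0) : a = 0 := by
  have key : ∀ k, Ord k a := by
    intro k
    induction k with
    | zero => exact Ord.all a
    | succ k ih =>
      have h1 := ord_succ ψ h ih
      rw [ha, zero_sub] at h1
      have h2 := h1.neg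
      rwa [neg_neg] at h2
  obtain ⟨d, hd⟩ := exists_deg a
  exact eq_zero_of (key (d + 1)) hd

/-- endomorphisms approximated to the order two by an automorphism are injective, over every commutative
ring -/
theorem injective_of_app1 (φ : FR R n →ₐ[R] FR R n) (h : App1 2 φ) : Function.Injective φ := by
  obtain ⟨p, α, hα⟩ := h
  let p' : Fin n → R := fun j => -p j
  have hpp : ∀ j, p j + p' j = 0 := fun j => by simp [p']
  have hpp' : ∀ j, p' j + p j = 0 := fun j => by simp [p']
  let ψ : FR R n →ₐ[R] FR R n :=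
    (((tr p).comp φ).comp (α.symm : FR R n →ₐ[R] FR R n)).comp (tr p')
  have hψ : ∀ a, ψ (tr p (α a)) = tr p (φ a) := by
    intro a
    show tr p (φ (α.symm (tr p' (tr p (α a))))) = _
    rw [tr_tr p' p hpp', α.symm_apply_apply]
  have h1 : ∀ i, Ord 2 (ψ (gx i) - gx i) := by
    intro i
    have h2 : Ord 2 (tr p (φ (α.symm (tr p' (gx i)))) - tr p (α (α.symm (tr p' (gx i))))) :=
      hom_sub_ord ((tr p).comp φ) ((tr p).comp (α : FR R n →ₐ[R] FR R n)) (fun i => by
        have := hα i
        rw [map_sub] at this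
        exact this) _
    rw [α.apply_symm_apply, tr_tr p p' hpp] at h2
    exact h2
  rw [injective_iff_map_eq_zero]
  intro a ha
  have h3 : tr p (α a) = 0 := by
    apply inj_of_two ψ h1
    rw [hψ, ha, map_zero]
  have h4 : α a = 0 := by
    rw [← tr_tr p' p hpp' (α a), h3, map_zero]
  rw [← α.symm_apply_apply a, h4, map_zero]

/-- surjectivity modulo all prime ideals implies surjectivity -/
theorem surjective_of_primes (φ : FR R n →ₐ[R] FR R n) (h : ∀ P : Ideal R, P.IsPrime → SurI φ P) :
    Function.Surjective φ := by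
  classical
  have key : SurI φ ⊥ := by
    refine Ideal.IsOka.forall_of_forall_prime' (isOka φ) ?_ (fun P hP => h P hP) ⊥
    intro C hC hchain J hJ hs
    choose a ha using hs
    have hfin : ∀ T : Finset R, (∀ t ∈ T, t ∈ sSup C) → ∃ I ∈ C, ∀ t ∈ T, t ∈ I := by
      intro T
      induction T using Finset.induction_on with
      | empty => intro _; exact ⟨J, hJ, by simp⟩
      | insert t T ht ih =>
        intro hT
        obtain ⟨I, hI, h1⟩ := ih (fun t ht => hT t (Finset.mem_insert_of_mem ht))
        obtain ⟨I', hI', h2⟩ := (Submodule.mem_sSup_of_directed ⟨J, hJ⟩ hchain.directedOn).1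
          (hT t (Finset.mem_insert_self _ _))
        rcases hchain.total hI hI' with h3 | h3
        · refine ⟨I', hI', fun x hx => ?_⟩
          rcases Finset.mem_insert.1 hx with rfl | hx
          · exact h2
          · exact h3 (h1 x hx)
        · refine ⟨I, hI, fun x hx => ?_⟩
          rcases Finset.mem_insert.1 hx with rfl | hx
          · exact h3 h2
          · exact h1 x hx
    obtain ⟨I, hI, h1⟩ := hfin (Finset.univ.biUnion fun j =>
      (φ (a j) - gx j).coeff.support.image fun w => (φ (a j) - gx j).coeff w) (by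
        intro t ht
        simp only [Finset.mem_biUnion, Finset.mem_image] at ht
        obtain ⟨j, -, w, -, rfl⟩ := ht
        exact ha j w)
    refine ⟨I, hI, fun j => ⟨a j, fun w => ?_⟩⟩
    by_cases hw : w ∈ (φ (a j) - gx j).coeff.support
    · apply h1
      simp only [Finset.mem_biUnion, Finset.mem_image]
      exact ⟨j, Finset.mem_univ _, w, hw, rfl⟩
    · rw [Finsupp.notMem_support_iff.1 hw]
      exact I.zero_mem
  intro b
  obtain ⟨a, ha⟩ := key.all b
  refine ⟨a, ?_⟩
  rw [← sub_eq_zero]
  ext w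
  exact ha w

/-- a sufficient level for endomorphisms of degree at most `d` over fields, and the degree of the inverse -/
structure FieldLevel (n d M E : ℕ) : Prop where
  two : 2 ≤ M
  det : ∀ (K : Type u) [Field K] (φ : FR K n →ₐ[K] FR K n), (∀ i, Deg d (φ (gx i))) → App1 M φ →
    Function.Bijective φ ∧ ∀ i, ∃ g : FR K n, Deg E g ∧ φ g = gx i

section

variable {d M E : ℕ} (hL : FieldLevel.{u} n d M E)

include hL

/-- surjectivity over a domain -/
theorem surI_of_isDomain [IsDomain R] (φ : FR R n →ₐ[R] FR R n) (hd : ∀ i, Deg d (φ (gx i)))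
    (h : App1 M φ) : SurI φ ⊥ := by
  classical
  intro j
  set K := FractionRing R
  set f : R →+* K := algebraMap R K
  have hf : Function.Injective f := IsFractionRing.injective R K
  have hfb : Function.Injective (bc f : FR R n →+* FR K n) := by
    intro a b hab
    ext w
    apply hf
    rw [← bc_coeff, hab, bc_coeff]
  obtain ⟨h0, hh0⟩ := (hL.det K (bh f φ) (fun i => by rw [bh_gx]; exact deg_bc f (hd i))
    (h.bh f)).1.2 (gx j)
  -- a common denominator
  obtain ⟨s, hs⟩ := IsLocalization.exist_integer_multiples (nonZeroDivisors R) h0.coeff.support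
    (fun w => h0.coeff w)
  have hs0 : (s : R) ≠ 0 := nonZeroDivisors.ne_zero s.2
  have hc : ∀ w, ∃ c : R, f c = f s * h0.coeff w := by
    intro w
    by_cases hw : w ∈ h0.coeff.support
    · obtain ⟨c, hc⟩ := hs w hw
      exact ⟨c, by rw [hc, Algebra.smul_def]⟩
    · exact ⟨0, by rw [Finsupp.notMem_support_iff.1 hw, map_zero, mul_zero]⟩
  choose c hc using hc
  set a : FR R n := ∑ w ∈ h0.coeff.support, c w • mon w with ha
  have hba : bc f a = f s • h0 := by
    rw [ha, map_sum]
    conv_rhs => rw [FR_sum h0, Finset.smul_sum]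
    apply Finset.sum_congr rfl
    intro w _
    rw [bc_smul, bc_mon, smul_smul, hc]
  have h1 : φ a = (s : R) • gx j := by
    apply hfb
    rw [← bh_bc, hba, map_smul, hh0, bc_smul, bc_gx]
  -- reduction modulo `s`
  have h2 : InI (Ideal.span {(s : R)}) a := by
    rw [inI_iff_bc]
    apply injective_of_app1 _ ((h.mono hL.two).bh (Ideal.Quotient.mk (Ideal.span {(s : R)})))
    rw [bh_bc, h1, map_zero, ← inI_iff_bc]
    intro w
    rw [MonoidAlgebra.coeff_smul, Finsupp.smul_apply, smul_eq_mul, mul_comm]
    exact Ideal.mul_mem_left _ _ (Ideal.mem_span_singleton_self _)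
  obtain ⟨b, hb⟩ := exists_smul h2
  refine ⟨b, ?_⟩
  have h3 : φ b = gx j := by
    rw [hb, map_smul] at h1
    ext w
    have h4 := congrArg (fun x : FR R n => x.coeff w) h1
    simp only [MonoidAlgebra.coeff_smul, Finsupp.smul_apply, smul_eq_mul] at h4
    exact mul_left_cancel₀ hs0 h4
  rw [h3, sub_self]
  exact InI.zero

/-- surjectivity modulo a prime ideal -/
theorem surI_of_isPrime (φ : FR R n →ₐ[R] FR R n) (hd : ∀ i, Deg d (φ (gx i))) (h : App1 M φ)
    (P : Ideal R) (hP : P.IsPrime) : SurI φ P := by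
  classical
  intro j
  obtain ⟨a, ha⟩ := surI_of_isDomain hL (bh (Ideal.Quotient.mk P) φ)
    (fun i => by rw [bh_gx]; exact deg_bc _ (hd i)) (h.bh _) j
  have ha' : bh (Ideal.Quotient.mk P) φ a = gx j := by
    rw [← sub_eq_zero]
    ext w
    exact ha w
  -- lift `a`
  have hc : ∀ w, ∃ c : R, Ideal.Quotient.mk P c = a.coeff w := fun w =>
    Ideal.Quotient.mk_surjective _
  choose c hc using hc
  refine ⟨∑ w ∈ a.coeff.support, c w • mon w, ?_⟩
  have hb : bc (Ideal.Quotient.mk P) (∑ w ∈ a.coeff.support, c w • mon w : FR R n) = a := by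
    rw [map_sum]
    conv_rhs => rw [FR_sum a]
    apply Finset.sum_congr rfl
    intro w _
    rw [bc_smul, bc_mon, hc]
  rw [inI_iff_bc, map_sub, ← bh_bc, hb, ha', bc_gx, sub_self]

/-- one level of approximation by an automorphism is sufficient over every commutative ring -/
theorem bijective_of_app1 (φ : FR R n →ₐ[R] FR R n) (hd : ∀ i, Deg d (φ (gx i))) (h : App1 M φ) :
    Function.Bijective φ :=
  ⟨injective_of_app1 φ (h.mono hL.two),
    surjective_of_primes φ fun P hP => surI_of_isPrime hL φ hd h P hP⟩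

/-- the degree of the inverse over a reduced ring -/
theorem deg_inv [IsReduced R] (φ : FR R n →ₐ[R] FR R n) (hd : ∀ i, Deg d (φ (gx i))) (h : App1 M φ)
    (i : Fin n) (g : FR R n) (hg : φ g = gx i) : Deg E g := by
  intro w hw
  have h1 : IsNilpotent (g.coeff w) := by
    rw [← mem_nilradical, nilradical_eq_sInf, Ideal.mem_sInf]
    intro P hP
    have hP' : P.IsPrime := hP
    let S := R ⧸ P
    let K := FractionRing S
    let f : R →+* K := (algebraMap S K).comp (Ideal.Quotient.mk P)
    obtain ⟨hb, hpre⟩ := hL.det K (bh f φ) (fun i => by rw [bh_gx]; exact deg_bc f (hd i)) (h.bh f)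
    obtain ⟨g', hg1, hg2⟩ := hpre i
    have h2 : bc f g = g' := by
      apply hb.1
      rw [hg2, bh_bc, hg, bc_gx]
    have h3 : f (g.coeff w) = 0 := by
      rw [← bc_coeff, h2, hg1 w hw]
    have h4 : Ideal.Quotient.mk P (g.coeff w) = 0 :=
      (IsFractionRing.injective S K) (by rw [map_zero]; exact h3)
    exact Ideal.Quotient.eq_zero_iff_mem.1 h4
  exact h1.eq_zero

end

section field

open Pool.Agent.H193R3 Pool.Agent.Y814.FD in
/-- the library theorem over fields in the language of this file -/
theorem fieldLevel (n d S S1 g0 D s0 M : ℕ) (hS : S = n * (1 + n) ^ d)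
    (hS1 : S1 = S * (1 + n) ^ d) (hg0 : g0 = lv (S * (1 + n) ^ (lv S * (S1 + d))))
    (hD : D = S * (S1 + d + 1) + S1) (hs0 : s0 = ∑ k ∈ Finset.range (D + 2), n ^ k)
    (hM1 : n * (lv S * g0) * d + 2 ≤ M) (hM2 : s0 * lv s0 + 1 ≤ M) :
    FieldLevel.{u} n d M s0 where
  two := by omega
  det := by
    intro K _ φ hd h
    have h1 : ∀ i, φ (Pool.Agent.H193R3.gx i) ∈ degA K n d := by
      intro i
      rw [mem_degA]
      intro w hw
      exact hd i w hw
    obtain ⟨hb, hpre⟩ := fin_det K n d S S1 g0 D s0 M hS hS1 hg0 hD hs0 hM1 hM2 φ h1 h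
    refine ⟨hb, fun i => ?_⟩
    obtain ⟨g, hg1, hg2⟩ := hpre i
    exact ⟨g, fun w hw => mem_degA.1 hg1 w hw, hg2⟩

end field

end Pool.Agent.H829.GE
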